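import Mathlib
import Pool.Agent.H13R3.EM.Neg
import Pool.Agent.H446R3.EM.TaskEMA
import Pool.Agent.H886R3.TaskEMB

/-!
# MP_dafbe7_nt, Q1: the conjectured bound for hybrid moments of error terms is false

For suitable entire elements `F₁`, `F₂ = F₁ G` of the Selberg class, of integer degrees `d₁ < d₂`, the
integral `∫_1^T E_{f₁}(x) E_{f₂}(x) dx` is not `O(T ^ θ)`, for any prescribed `θ < 3`, although
`1 + σ < 2`. `Q1` below is Q1 of the problem, with `Sel` the structure of an element of the Selberg class.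
-/

set_option autoImplicit false

namespace Pool.Agent.Results.MP_dafbe7_nt.HybridMomentsFail

open Pool.Agent.H13R3.EM

/-- Q1 of the problem: for all data with `min ℓ_j = 1` there is `δ > 0` such that
`∫_1^T ∏ E_{f_j}(x)^{ℓ_j} dx ≪ T^(1 + σ - δ + ε)` for every `ε > 0`, `σ = ∑ ℓ_j (d_j - 1) / (2 d_j)`. -/
def Q1 : Prop := ∀ (k : ℕ) (d ℓ : Fin k → ℕ) (F : Fin k → Sel), 2 ≤ k → StrictMono d → (∀ j, 2 ≤ d j) →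
  (∀ j, (F j).deg = (d j : ℝ)) → (∀ j, 1 ≤ ℓ j) → (∃ j, ℓ j = 1) →
  ∃ δ : ℝ, 0 < δ ∧ ∀ ε : ℝ, 0 < ε → ∃ C : ℝ, ∀ T : ℝ, 1 ≤ T →
    ‖∫ x in (1:ℝ)..T, ∏ j, (F j).err x ^ ℓ j‖ ≤
      C * T ^ (1 + ∑ j, (ℓ j : ℝ) * ((d j : ℝ) - 1) / (2 * (d j : ℝ)) - δ + ε)

/-- The quantitative form: the correlation is not `O(T ^ θ)` for any `θ < 3`. -/
theorem strong (θ : ℝ) (hθ : θ < 3) :
    ∃ (F₁ F₂ : Sel) (a₁ a₂ : ℕ → ℝ) (d₁ d₂ : ℕ), 2 ≤ d₁ ∧ d₁ < d₂ ∧ F₁.deg = d₁ ∧ F₂.deg = d₂ ∧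
      F₁.m0 = 0 ∧ F₂.m0 = 0 ∧ (∀ n, 1 ≤ n → F₁.a n = ((a₁ n : ℝ) : ℂ)) ∧ (∀ n, 1 ≤ n → F₂.a n = ((a₂ n : ℝ) : ℂ)) ∧
      ∀ C : ℝ, ∃ T : ℝ, 1 ≤ T ∧ C * T ^ θ < ∫ x in (1:ℝ)..T, EE a₁ x * EE a₂ x :=
  strong_of Pool.Agent.H446R3.EM.taskA Pool.Agent.H886R3.EMB.taskB θ hθ

theorem result : ¬ Q1 :=
  not_hybridQ1 Pool.Agent.H446R3.EM.taskA Pool.Agent.H886R3.EMB.taskB

end Pool.Agent.Results.MP_dafbe7_nt.HybridMomentsFail
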